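import Pool.Agent.Lib.MP_5b6025_nt.Weyl

/-!
Van der Corput's lemma and invariance of the vanishing of exponential averages under rational
translations.
-/

open Filter Topology Finset

namespace Pool.Agent.Lib.MP_5b6025_nt

lemma norm_sum_shift_sub_le {v : ℕ → ℂ} (hv : ∀ n, ‖v n‖ ≤ 1) (s N : ℕ) :
    ‖∑ n ∈ range N, v (n + s) - ∑ n ∈ range N, v n‖ ≤ 2 * s := by
  have h1 : ∑ n ∈ range N, v (n + s) - ∑ n ∈ range N, v n
      = ∑ n ∈ range s, v (N + n) - ∑ n ∈ range s, v n := by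
    have e1 : ∑ n ∈ range (s + N), v n = ∑ n ∈ range s, v n + ∑ n ∈ range N, v (s + n) :=
      Finset.sum_range_add _ _ _
    have e2 : ∑ n ∈ range (N + s), v n = ∑ n ∈ range N, v n + ∑ n ∈ range s, v (N + n) :=
      Finset.sum_range_add _ _ _
    have e3 : ∑ n ∈ range N, v (n + s) = ∑ n ∈ range N, v (s + n) :=
      Finset.sum_congr rfl fun n _ => by rw [add_comm]
    rw [e3]
    rw [add_comm s N, e2] at e1
    linear_combination -e1
  rw [h1]
  have hb : ∀ f : ℕ → ℂ, (∀ n, ‖f n‖ ≤ 1) → ‖∑ n ∈ range s, f n‖ ≤ s := by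
    intro f hf
    calc ‖∑ n ∈ range s, f n‖ ≤ ∑ n ∈ range s, ‖f n‖ := norm_sum_le _ _
      _ ≤ ∑ _n ∈ range s, (1 : ℝ) := Finset.sum_le_sum fun n _ => hf n
      _ = s := by simp
  calc _ ≤ ‖∑ n ∈ range s, v (N + n)‖ + ‖∑ n ∈ range s, v n‖ := norm_sub_le _ _
    _ ≤ s + s := add_le_add (hb _ fun n => hv _) (hb _ hv)
    _ = 2 * s := by ring

lemma tendsto_avg_of_close {u v : ℕ → ℂ} {C : ℝ}
    (h : ∀ N : ℕ, ‖∑ n ∈ range N, u n - ∑ n ∈ range N, v n‖ ≤ C)
    (hv : Tendsto (fun N : ℕ => (∑ n ∈ range N, v n) / (N : ℂ)) atTop (𝓝 0)) :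
    Tendsto (fun N : ℕ => (∑ n ∈ range N, u n) / (N : ℂ)) atTop (𝓝 0) := by
  have h1 : Tendsto (fun N : ℕ => (∑ n ∈ range N, u n - ∑ n ∈ range N, v n) / (N : ℂ)) atTop
      (𝓝 0) := by
    rw [tendsto_zero_iff_norm_tendsto_zero]
    have h2 : Tendsto (fun N : ℕ => C / (N : ℝ)) atTop (𝓝 0) :=
      tendsto_const_nhds.div_atTop tendsto_natCast_atTop_atTop
    refine squeeze_zero (fun _ => norm_nonneg _) (fun N => ?_) h2
    rw [norm_div, Complex.norm_natCast]
    exact div_le_div_of_nonneg_right (h N) (Nat.cast_nonneg N)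
  have h3 := h1.add hv
  rw [add_zero] at h3
  refine h3.congr fun N => ?_
  rw [← add_div, sub_add_cancel]

lemma tendsto_avg_shift {v : ℕ → ℂ} (hv : ∀ n, ‖v n‖ ≤ 1)
    (h : Tendsto (fun N : ℕ => (∑ n ∈ range N, v n) / (N : ℂ)) atTop (𝓝 0)) (s : ℕ) :
    Tendsto (fun N : ℕ => (∑ n ∈ range N, v (n + s)) / (N : ℂ)) atTop (𝓝 0) :=
  tendsto_avg_of_close (fun N => norm_sum_shift_sub_le hv s N) h

/-- Van der Corput's lemma with shifts that are multiples of `r`. -/
theorem vdc {u : ℕ → ℂ} (hu : ∀ n, ‖u n‖ ≤ 1) (r : ℕ)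
    (h : ∀ l : ℕ, 1 ≤ l → Tendsto (fun N : ℕ =>
      (∑ n ∈ range N, u (n + l * r) * starRingEnd ℂ (u n)) / (N : ℂ)) atTop (𝓝 0)) :
    Tendsto (fun N : ℕ => (∑ n ∈ range N, u n) / (N : ℂ)) atTop (𝓝 0) := by
  have hconj : ∀ z : ℂ, ‖starRingEnd ℂ z‖ = ‖z‖ := fun z => RCLike.norm_conj z
  -- correlations
  have hcorr : ∀ l l' : ℕ, l ≠ l' → Tendsto (fun N : ℕ =>
      (∑ n ∈ range N, u (n + l * r) * starRingEnd ℂ (u (n + l' * r))) / (N : ℂ)) atTop (𝓝 0) := by
    have key : ∀ l l' : ℕ, l' < l → Tendsto (fun N : ℕ =>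
        (∑ n ∈ range N, u (n + l * r) * starRingEnd ℂ (u (n + l' * r))) / (N : ℂ)) atTop (𝓝 0) := by
      intro l l' hll
      have h1 := tendsto_avg_shift (v := fun n => u (n + (l - l') * r) * starRingEnd ℂ (u n))
        (fun n => by
          rw [norm_mul, hconj]
          exact mul_le_one₀ (hu _) (norm_nonneg _) (hu _)) (h (l - l') (by omega)) (l' * r)
      refine h1.congr fun N => ?_
      congr 1
      refine Finset.sum_congr rfl fun n _ => ?_
      have : n + l' * r + (l - l') * r = n + l * r := by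
        rw [add_assoc, ← add_mul]; congr 2; omega
      simp only [this]
    intro l l' hne
    rcases lt_or_gt_of_ne hne with hlt | hgt
    · have h1 := (Complex.continuous_conj.tendsto _).comp (key l' l hlt)
      rw [map_zero] at h1
      refine h1.congr fun N => ?_
      simp only [Function.comp, map_div₀, map_sum, map_mul, Complex.conj_conj, Complex.conj_natCast]
      congr 1
      exact Finset.sum_congr rfl fun n _ => mul_comm _ _
    · exact key l l' hgt
  rw [Metric.tendsto_atTop]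
  intro ε hε
  -- choose H
  obtain ⟨H, hH1, hHε⟩ : ∃ H : ℕ, 1 ≤ H ∧ (Real.sqrt (H + 1) + 1) / H < ε := by
    have h1 : Tendsto (fun H : ℕ => (Real.sqrt ((H : ℝ) + 1) + 1) / (H : ℝ)) atTop (𝓝 0) := by
      have h2 : Tendsto (fun H : ℕ => 3 / Real.sqrt (H : ℝ)) atTop (𝓝 0) :=
        tendsto_const_nhds.div_atTop
          ((Real.tendsto_sqrt_atTop).comp tendsto_natCast_atTop_atTop)
      refine squeeze_zero' (Eventually.of_forall fun H => by positivity) ?_ h2
      filter_upwards [eventually_ge_atTop 1] with H hH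
      have hH' : (1 : ℝ) ≤ H := by exact_mod_cast hH
      have hs : 1 ≤ Real.sqrt H := Real.one_le_sqrt.mpr hH'
      have hs2 : Real.sqrt H * Real.sqrt H = H := Real.mul_self_sqrt (by linarith)
      have h3 : Real.sqrt ((H : ℝ) + 1) ≤ 2 * Real.sqrt H := by
        rw [Real.sqrt_le_left (by positivity)]
        nlinarith
      rw [div_le_div_iff₀ (by linarith) (by linarith)]
      nlinarith
    obtain ⟨H, hH⟩ := ((h1.eventually (gt_mem_nhds hε)).and (eventually_ge_atTop 1)).exists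
    exact ⟨H, hH.2, hH.1⟩
  have hHpos : (0 : ℝ) < H := by exact_mod_cast hH1
  set V : ℕ → ℂ := fun n => ∑ l ∈ range H, u (n + l * r) with hV
  -- mean square of V
  have hoff : Tendsto (fun N : ℕ => ∑ p ∈ (range H ×ˢ range H).filter (fun p => p.1 ≠ p.2),
      ‖(∑ n ∈ range N, u (n + p.1 * r) * starRingEnd ℂ (u (n + p.2 * r))) / (N : ℂ)‖) atTop
      (𝓝 0) := by
    have : (0 : ℝ) = ∑ p ∈ (range H ×ˢ range H).filter (fun p => p.1 ≠ p.2), (0 : ℝ) := by simp
    rw [this]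
    refine tendsto_finsetSum _ fun p hp => ?_
    exact (tendsto_zero_iff_norm_tendsto_zero.mp (hcorr p.1 p.2 (Finset.mem_filter.mp hp).2))
  have hev1 : ∀ᶠ N : ℕ in atTop, ∑ p ∈ (range H ×ˢ range H).filter (fun p => p.1 ≠ p.2),
      ‖(∑ n ∈ range N, u (n + p.1 * r) * starRingEnd ℂ (u (n + p.2 * r))) / (N : ℂ)‖ < 1 :=
    hoff.eventually (gt_mem_nhds one_pos)
  have hev2 : ∀ᶠ N : ℕ in atTop, (2 * (H : ℝ) * H * r) / (N : ℝ) < 1 := by
    have : Tendsto (fun N : ℕ => (2 * (H : ℝ) * H * r) / (N : ℝ)) atTop (𝓝 0) :=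
      tendsto_const_nhds.div_atTop tendsto_natCast_atTop_atTop
    exact this.eventually (gt_mem_nhds one_pos)
  obtain ⟨N₀, hN₀⟩ := ((hev1.and hev2).and (eventually_ge_atTop 1)).exists_forall_of_atTop
  refine ⟨N₀, fun N hN => ?_⟩
  obtain ⟨⟨h1, h2⟩, h3⟩ := hN₀ N hN
  have hNpos : (0 : ℝ) < N := by exact_mod_cast h3
  have hNne : (N : ℂ) ≠ 0 := by exact_mod_cast hNpos.ne'
  rw [dist_zero_right]
  -- mean square
  have hms : (∑ n ∈ range N, ‖V n‖ ^ 2) / N ≤ H + 1 := by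
    have e1 : (((∑ n ∈ range N, ‖V n‖ ^ 2) / N : ℝ) : ℂ)
        = ∑ p ∈ range H ×ˢ range H,
          (∑ n ∈ range N, u (n + p.1 * r) * starRingEnd ℂ (u (n + p.2 * r))) / (N : ℂ) := by
      have e2 : ∀ n, ((‖V n‖ ^ 2 : ℝ) : ℂ)
          = ∑ p ∈ range H ×ˢ range H, u (n + p.1 * r) * starRingEnd ℂ (u (n + p.2 * r)) := by
        intro n
        rw [← Complex.normSq_eq_norm_sq, ← Complex.mul_conj, hV]
        simp only
        rw [map_sum, Finset.sum_mul_sum, Finset.sum_product]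
      push_cast at e2 ⊢
      rw [Finset.sum_congr rfl (fun n _ => e2 n), Finset.sum_comm, Finset.sum_div]
    have e3 : (∑ n ∈ range N, ‖V n‖ ^ 2) / N
        ≤ ‖∑ p ∈ range H ×ˢ range H,
          (∑ n ∈ range N, u (n + p.1 * r) * starRingEnd ℂ (u (n + p.2 * r))) / (N : ℂ)‖ := by
      rw [← e1, Complex.norm_real]
      exact le_abs_self _
    refine e3.trans ?_
    rw [← Finset.sum_filter_add_sum_filter_not (range H ×ˢ range H) (fun p => p.1 ≠ p.2)]
    refine (norm_add_le _ _).trans ?_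
    have e4 : ‖∑ p ∈ (range H ×ˢ range H).filter (fun p => p.1 ≠ p.2),
          (∑ n ∈ range N, u (n + p.1 * r) * starRingEnd ℂ (u (n + p.2 * r))) / (N : ℂ)‖ ≤ 1 :=
      (norm_sum_le _ _).trans h1.le
    have e5 : ‖∑ p ∈ (range H ×ˢ range H).filter (fun p => ¬ p.1 ≠ p.2),
          (∑ n ∈ range N, u (n + p.1 * r) * starRingEnd ℂ (u (n + p.2 * r))) / (N : ℂ)‖ ≤ H := by
      refine (norm_sum_le _ _).trans ?_
      have e6 : ((range H ×ˢ range H).filter (fun p => ¬ p.1 ≠ p.2)).card ≤ H := by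
        have : (range H ×ˢ range H).filter (fun p => ¬ p.1 ≠ p.2) ⊆ (range H).image fun l => (l, l) := by
          intro p hp
          rw [Finset.mem_filter, Finset.mem_product, not_not] at hp
          refine Finset.mem_image.mpr ⟨p.1, hp.1.1, ?_⟩
          exact Prod.ext rfl hp.2
        exact (Finset.card_le_card this).trans (Finset.card_image_le.trans (by simp))
      calc _ ≤ ∑ _p ∈ (range H ×ˢ range H).filter (fun p => ¬ p.1 ≠ p.2), (1 : ℝ) := by
            refine Finset.sum_le_sum fun p _ => ?_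
            refine avg_norm_le zero_le_one (fun n => ?_) N
            rw [norm_mul, hconj]
            exact mul_le_one₀ (hu _) (norm_nonneg _) (hu _)
        _ ≤ H := by
            rw [Finset.sum_const, nsmul_eq_mul, mul_one]
            exact_mod_cast e6
    linarith
  -- Cauchy-Schwarz
  have hcs : ‖∑ n ∈ range N, V n‖ ≤ N * Real.sqrt (H + 1) := by
    have e1 : ‖∑ n ∈ range N, V n‖ ^ 2 ≤ N * ∑ n ∈ range N, ‖V n‖ ^ 2 := by
      have e2 : ‖∑ n ∈ range N, V n‖ ≤ ∑ n ∈ range N, ‖V n‖ := norm_sum_le _ _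
      have e3 : (∑ n ∈ range N, ‖V n‖) ^ 2 ≤ (range N).card * ∑ n ∈ range N, ‖V n‖ ^ 2 :=
        sq_sum_le_card_mul_sum_sq
      rw [card_range] at e3
      calc _ ≤ (∑ n ∈ range N, ‖V n‖) ^ 2 := by gcongr
        _ ≤ _ := e3
    have e4 : ∑ n ∈ range N, ‖V n‖ ^ 2 ≤ N * (H + 1) := by
      rw [div_le_iff₀ hNpos] at hms; linarith
    have e5 : ‖∑ n ∈ range N, V n‖ ^ 2 ≤ (N * Real.sqrt (H + 1)) ^ 2 := by
      rw [mul_pow, Real.sq_sqrt (by positivity)]
      nlinarith
    exact (pow_le_pow_iff_left₀ (norm_nonneg _) (by positivity) two_ne_zero).mp e5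
  -- compare with H copies of the sum
  have hcmp : ‖(H : ℂ) * ∑ n ∈ range N, u n - ∑ n ∈ range N, V n‖ ≤ 2 * H * H * r := by
    have e1 : (H : ℂ) * ∑ n ∈ range N, u n - ∑ n ∈ range N, V n
        = ∑ l ∈ range H, (∑ n ∈ range N, u n - ∑ n ∈ range N, u (n + l * r)) := by
      rw [Finset.sum_sub_distrib, Finset.sum_const, card_range, nsmul_eq_mul]
      congr 1
      rw [hV]
      exact Finset.sum_comm
    rw [e1]
    calc _ ≤ ∑ l ∈ range H, ‖∑ n ∈ range N, u n - ∑ n ∈ range N, u (n + l * r)‖ := norm_sum_le _ _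
      _ ≤ ∑ _l ∈ range H, (2 * (H : ℝ) * r) := by
          refine Finset.sum_le_sum fun l hl => ?_
          rw [norm_sub_rev]
          refine (norm_sum_shift_sub_le hu (l * r) N).trans ?_
          have : (l : ℝ) ≤ H := by exact_mod_cast (Finset.mem_range.mp hl).le
          push_cast
          nlinarith [Nat.cast_nonneg (α := ℝ) r]
      _ = 2 * H * H * r := by rw [Finset.sum_const, card_range, nsmul_eq_mul]; ring
  have hfin : (H : ℝ) * ‖∑ n ∈ range N, u n‖ ≤ N * Real.sqrt (H + 1) + 2 * H * H * r := by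
    have e1 : ‖(H : ℂ) * ∑ n ∈ range N, u n‖ ≤ ‖(H : ℂ) * ∑ n ∈ range N, u n - ∑ n ∈ range N, V n‖
        + ‖∑ n ∈ range N, V n‖ := by
      have := norm_add_le ((H : ℂ) * ∑ n ∈ range N, u n - ∑ n ∈ range N, V n) (∑ n ∈ range N, V n)
      rwa [sub_add_cancel] at this
    rw [norm_mul, Complex.norm_natCast] at e1
    linarith
  rw [norm_div, Complex.norm_natCast]
  calc ‖∑ n ∈ range N, u n‖ / N
      ≤ (N * Real.sqrt (H + 1) + 2 * H * H * r) / H / N := by
        gcongr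
        rw [le_div_iff₀ hHpos]; linarith
    _ = (Real.sqrt (H + 1) + (2 * H * H * r) / N) / H := by field_simp
    _ ≤ (Real.sqrt (H + 1) + 1) / H := by gcongr
    _ < ε := hHε

/-- Rational translations do not affect the vanishing of exponential averages. -/
theorem expZero_add_rat {b : ℕ} (hb : 2 ≤ b) {x : ℝ} (hx : ExpZero (fun n => x * (b : ℝ) ^ n))
    (q : ℚ) : ExpZero (fun n => (x + q) * (b : ℝ) ^ n) := by
  -- powers of `b` modulo the denominator are eventually periodic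
  obtain ⟨n₀, n₁, hlt, hmod⟩ : ∃ n₀ n₁ : ℕ, n₀ < n₁ ∧
      (b : ZMod q.den) ^ n₀ = (b : ZMod q.den) ^ n₁ := by
    have : NeZero q.den := ⟨q.den_nz⟩
    obtain ⟨m, n, hmn, he⟩ := Finite.exists_ne_map_eq_of_infinite
      (fun n : ℕ => (b : ZMod q.den) ^ n)
    rcases lt_or_gt_of_ne hmn with h | h
    · exact ⟨m, n, h, he⟩
    · exact ⟨n, m, h, he.symm⟩
  set r := n₁ - n₀ with hr
  have hr1 : 1 ≤ r := by omega
  -- integrality
  have hint : ∀ l n : ℕ, n₀ ≤ n → ∃ z : ℤ, (q : ℝ) * (b : ℝ) ^ n * ((b : ℝ) ^ (l * r) - 1) = z := by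
    intro l n hn
    have h1 : ((b : ZMod q.den) ^ n) * ((b : ZMod q.den) ^ (l * r) - 1) = 0 := by
      obtain ⟨s, rfl⟩ := Nat.exists_eq_add_of_le hn
      have hper : ∀ l, (b : ZMod q.den) ^ n₀ * (b : ZMod q.den) ^ (l * r) = (b : ZMod q.den) ^ n₀ := by
        intro l
        induction l with
        | zero => simp
        | succ l ih =>
          rw [add_mul, one_mul, pow_add, ← mul_assoc, ih, ← pow_add]
          have : n₀ + r = n₁ := by omega
          rw [this, hmod]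
      rw [pow_add, mul_sub, mul_one]
      calc _ = (b : ZMod q.den) ^ s * ((b : ZMod q.den) ^ n₀ * (b : ZMod q.den) ^ (l * r))
            - (b : ZMod q.den) ^ s * (b : ZMod q.den) ^ n₀ := by ring
        _ = 0 := by rw [hper, sub_self]
    have h2 : ((q.den : ℕ) : ℤ) ∣ (b : ℤ) ^ n * ((b : ℤ) ^ (l * r) - 1) := by
      rw [← ZMod.intCast_zmod_eq_zero_iff_dvd]
      push_cast
      exact h1
    obtain ⟨c, hc⟩ := h2
    refine ⟨q.num * c, ?_⟩
    have h3 : (q : ℝ) = (q.num : ℝ) / (q.den : ℝ) := by exact_mod_cast (Rat.num_div_den q).symm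
    have h4 : (b : ℝ) ^ n * ((b : ℝ) ^ (l * r) - 1) = (q.den : ℝ) * c := by exact_mod_cast hc
    have hden : (q.den : ℝ) ≠ 0 := by exact_mod_cast q.den_nz
    rw [mul_assoc, h4, h3]
    push_cast
    field_simp
  intro h h0
  refine vdc (fun n => (norm_ee _).le) r ?_
  intro l hl
  set h' : ℤ := h * ((b : ℤ) ^ (l * r) - 1) with hh'
  have hh0 : h' ≠ 0 := by
    rw [hh']
    refine mul_ne_zero h0 ?_
    have h1 : 1 < (b : ℤ) ^ (l * r) := one_lt_pow₀ (by exact_mod_cast (show 1 < b by omega))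
      (Nat.mul_ne_zero (by omega) (by omega))
    omega
  refine tendsto_avg_of_close (C := 2 * n₀) (fun N => ?_) (hx h' hh0)
  rw [← Finset.sum_sub_distrib]
  have hterm : ∀ n, n₀ ≤ n → ee (h * ((x + q) * (b : ℝ) ^ (n + l * r)))
      * starRingEnd ℂ (ee (h * ((x + q) * (b : ℝ) ^ n))) - ee (h' * (x * (b : ℝ) ^ n)) = 0 := by
    intro n hn
    rw [← ee_neg, ← ee_add, sub_eq_zero]
    obtain ⟨z, hz⟩ := hint l n hn
    have : (h : ℝ) * ((x + q) * (b : ℝ) ^ (n + l * r)) + -((h : ℝ) * ((x + q) * (b : ℝ) ^ n))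
        = (h' : ℝ) * (x * (b : ℝ) ^ n) + ((h * z : ℤ) : ℝ) := by
      rw [hh']
      push_cast
      rw [← hz, pow_add]
      ring
    rw [this, ee_add_int]
  calc ‖∑ n ∈ range N, (ee (h * ((x + q) * (b : ℝ) ^ (n + l * r)))
      * starRingEnd ℂ (ee (h * ((x + q) * (b : ℝ) ^ n))) - ee (h' * (x * (b : ℝ) ^ n)))‖
      ≤ ∑ n ∈ range N, ‖ee (h * ((x + q) * (b : ℝ) ^ (n + l * r)))
      * starRingEnd ℂ (ee (h * ((x + q) * (b : ℝ) ^ n))) - ee (h' * (x * (b : ℝ) ^ n))‖ :=
        norm_sum_le _ _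
    _ ≤ ∑ n ∈ range N, (if n < n₀ then (2 : ℝ) else 0) := by
        refine Finset.sum_le_sum fun n _ => ?_
        split_ifs with hn
        · refine (norm_sub_le _ _).trans ?_
          rw [norm_mul, RCLike.norm_conj, norm_ee, norm_ee, norm_ee]
          norm_num
        · rw [hterm n (by omega), norm_zero]
    _ ≤ 2 * n₀ := by
        rw [← Finset.sum_filter, Finset.sum_const, nsmul_eq_mul, mul_comm]
        have : ((range N).filter fun n => n < n₀).card ≤ n₀ := by
          calc _ ≤ (range n₀).card := Finset.card_le_card fun n hn => by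
                rw [Finset.mem_filter] at hn; exact Finset.mem_range.mpr hn.2
            _ = n₀ := card_range _
        have : (((range N).filter fun n => n < n₀).card : ℝ) ≤ n₀ := by exact_mod_cast this
        linarith

end Pool.Agent.Lib.MP_5b6025_nt
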