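import Pool.Agent.Lib.MP_5b6025_nt.Weyl

/-!
Upper bound for the frequency of visits to a closed ball of the circle.
-/

open Filter Topology Finset MeasureTheory AddCircle

namespace Pool.Agent.Lib.MP_5b6025_nt

/-- a continuous bump function -/
noncomputable def bump (c : AddCircle (1 : ℝ)) (ρ η : ℝ) (x : AddCircle (1 : ℝ)) : ℝ :=
  max 0 (min 1 (1 - (dist x c - ρ) / η))

lemma bump_continuous (c : AddCircle (1 : ℝ)) (ρ η : ℝ) : Continuous (bump c ρ η) := by
  unfold bump
  exact continuous_const.max (continuous_const.min (continuous_const.sub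
    (((continuous_id.dist continuous_const).sub continuous_const).div_const _)))

lemma bump_nonneg (c : AddCircle (1 : ℝ)) (ρ η : ℝ) (x : AddCircle (1 : ℝ)) :
    0 ≤ bump c ρ η x := le_max_left _ _

lemma bump_le_one (c : AddCircle (1 : ℝ)) (ρ η : ℝ) (x : AddCircle (1 : ℝ)) :
    bump c ρ η x ≤ 1 := max_le zero_le_one (min_le_left _ _)

lemma bump_eq_one {c : AddCircle (1 : ℝ)} {ρ η : ℝ} (hη : 0 < η) {x : AddCircle (1 : ℝ)}
    (hx : dist x c ≤ ρ) : bump c ρ η x = 1 := by
  unfold bump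
  have h1 : (dist x c - ρ) / η ≤ 0 := div_nonpos_of_nonpos_of_nonneg (by linarith) hη.le
  rw [min_eq_left (by linarith), max_eq_right zero_le_one]

lemma bump_eq_zero {c : AddCircle (1 : ℝ)} {ρ η : ℝ} (hη : 0 < η) {x : AddCircle (1 : ℝ)}
    (hx : ρ + η < dist x c) : bump c ρ η x = 0 := by
  unfold bump
  have h1 : 1 ≤ (dist x c - ρ) / η := by
    rw [le_div_iff₀ hη]; linarith
  apply max_eq_left
  exact (min_le_right _ _).trans (by linarith)

lemma integral_bump_le (c : AddCircle (1 : ℝ)) {ρ η : ℝ} (hρ : 0 ≤ ρ) (hη : 0 < η) :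
    ∫ x, bump c ρ η x ∂haarAddCircle ≤ 2 * (ρ + η) := by
  have hvol : (haarAddCircle : Measure (AddCircle (1 : ℝ))) = volume := by
    rw [volume_eq_smul_haarAddCircle]; simp
  have hmeas : MeasurableSet (Metric.closedBall c (ρ + η)) := measurableSet_closedBall
  have hle : ∀ x, bump c ρ η x ≤ (Metric.closedBall c (ρ + η)).indicator (fun _ => (1 : ℝ)) x := by
    intro x
    by_cases hx : x ∈ Metric.closedBall c (ρ + η)
    · rw [Set.indicator_of_mem hx]; exact bump_le_one _ _ _ _
    · rw [Set.indicator_of_notMem hx, bump_eq_zero hη]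
      simpa [Metric.mem_closedBall, not_le] using hx
  calc ∫ x, bump c ρ η x ∂haarAddCircle
      ≤ ∫ x, (Metric.closedBall c (ρ + η)).indicator (fun _ => (1 : ℝ)) x ∂haarAddCircle := by
        refine integral_mono ?_ ?_ hle
        · exact (bump_continuous c ρ η).integrable_of_hasCompactSupport
            (HasCompactSupport.of_compactSpace _)
        · exact (integrable_const _).indicator hmeas
    _ = (haarAddCircle (Metric.closedBall c (ρ + η))).toReal := by
        rw [integral_indicator_const _ hmeas]; simp [Measure.real]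
    _ ≤ 2 * (ρ + η) := by
        rw [hvol, volume_closedBall, ENNReal.toReal_ofReal (by positivity)]
        exact min_le_right _ _

lemma eventually_freq_le {t : ℕ → ℝ} (ht : ExpZero t) (c : AddCircle (1 : ℝ)) {ρ : ℝ}
    (hρ : 0 ≤ ρ) {δ : ℝ} (hδ : 0 < δ) :
    ∀ᶠ N : ℕ in atTop, (((range N).filter fun n => dist ((t n : ℝ) : AddCircle (1 : ℝ)) c ≤ ρ).card : ℝ)
      / (N : ℝ) ≤ 2 * ρ + δ := by
  set η := δ / 4 with hη
  have hη0 : 0 < η := by positivity
  set F : C(AddCircle (1 : ℝ), ℂ) := ⟨fun x => (bump c ρ η x : ℂ),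
    Complex.continuous_ofReal.comp (bump_continuous c ρ η)⟩ with hF
  have h1 := tendsto_avg_of_expZero ht F
  have h2 : ∫ x, F x ∂haarAddCircle = ((∫ x, bump c ρ η x ∂haarAddCircle : ℝ) : ℂ) := by
    exact integral_ofReal (𝕜 := ℂ) (f := bump c ρ η)
  rw [h2] at h1
  have h3 := (Complex.continuous_re.tendsto _).comp h1
  simp only [Complex.ofReal_re] at h3
  have h4 : ∀ᶠ N : ℕ in atTop, ((∑ n ∈ range N, F (t n : AddCircle (1 : ℝ))) / (N : ℂ)).re
      < (∫ x, bump c ρ η x ∂haarAddCircle) + δ / 2 :=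
    h3.eventually (gt_mem_nhds (by linarith))
  filter_upwards [h4] with N hN
  have h5 : ((∑ n ∈ range N, F (t n : AddCircle (1 : ℝ))) / (N : ℂ)).re
      = (∑ n ∈ range N, bump c ρ η (t n : AddCircle (1 : ℝ))) / (N : ℝ) := by
    have : (∑ n ∈ range N, F (t n : AddCircle (1 : ℝ))) / (N : ℂ)
        = (((∑ n ∈ range N, bump c ρ η (t n : AddCircle (1 : ℝ))) / (N : ℝ) : ℝ) : ℂ) := by
      push_cast
      rfl
    rw [this, Complex.ofReal_re]
  rw [h5] at hN
  have h6 : (((range N).filter fun n => dist ((t n : ℝ) : AddCircle (1 : ℝ)) c ≤ ρ).card : ℝ)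
      ≤ ∑ n ∈ range N, bump c ρ η (t n : AddCircle (1 : ℝ)) := by
    rw [Finset.card_filter]
    push_cast
    refine Finset.sum_le_sum fun n _ => ?_
    split_ifs with h
    · rw [bump_eq_one hη0 h]
    · exact bump_nonneg _ _ _ _
  have h7 := integral_bump_le c hρ hη0
  calc _ ≤ (∑ n ∈ range N, bump c ρ η (t n : AddCircle (1 : ℝ))) / (N : ℝ) :=
        div_le_div_of_nonneg_right h6 (Nat.cast_nonneg N)
    _ ≤ _ := hN.le
    _ ≤ 2 * ρ + δ := by rw [hη] at h7; linarith

end Pool.Agent.Lib.MP_5b6025_nt
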