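import Pool.Agent.Lib.MP_5b6025_nt.Defs
import Pool.Agent.Lib.MP_5b6025_nt.Ball

/-!
Normality is equivalent to the vanishing of all exponential averages of `b^n x` (Wall).
-/

open Filter Topology Finset

namespace Pool.Agent.Lib.MP_5b6025_nt

variable {b : ℕ} {x : ℝ}

lemma digit_nonneg (hb : 2 ≤ b) (n : ℕ) : 0 ≤ digit b x n :=
  Int.emod_nonneg _ (by positivity)

lemma digit_lt (hb : 2 ≤ b) (n : ℕ) : digit b x n < b :=
  Int.emod_lt_of_pos _ (by positivity)

/-- The orbit point. -/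
noncomputable def orb (b : ℕ) (x : ℝ) (n : ℕ) : ℝ := Int.fract (x * (b : ℝ) ^ n)

lemma digit_eq_floor (hb : 2 ≤ b) (n : ℕ) : digit b x n = ⌊(b : ℝ) * orb b x n⌋ := by
  have hb0 : (0 : ℝ) < b := by positivity
  have h1 : x * (b : ℝ) ^ (n + 1) = (b : ℝ) * orb b x n + ((b * ⌊x * (b : ℝ) ^ n⌋ : ℤ) : ℝ) := by
    unfold orb
    rw [Int.fract]
    push_cast
    ring
  have h2 : 0 ≤ ⌊(b : ℝ) * orb b x n⌋ := Int.floor_nonneg.mpr (mul_nonneg hb0.le (Int.fract_nonneg _))
  have h3 : ⌊(b : ℝ) * orb b x n⌋ < b := by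
    rw [Int.floor_lt]
    have : orb b x n < 1 := Int.fract_lt_one _
    push_cast
    nlinarith
  unfold digit
  rw [h1, Int.floor_add_intCast, Int.add_mul_emod_self_left, Int.emod_eq_of_lt h2 h3]

lemma orb_succ (hb : 2 ≤ b) (n : ℕ) :
    (b : ℝ) * orb b x n = digit b x n + orb b x (n + 1) := by
  rw [digit_eq_floor hb]
  have h1 : x * (b : ℝ) ^ (n + 1) = (b : ℝ) * orb b x n + ((b * ⌊x * (b : ℝ) ^ n⌋ : ℤ) : ℝ) := by
    unfold orb
    rw [Int.fract]
    push_cast
    ring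
  have h2 : orb b x (n + 1) = Int.fract ((b : ℝ) * orb b x n) := by
    conv_lhs => unfold orb
    rw [h1, Int.fract_add_intCast]
  rw [h2, Int.fract]
  ring

/-- left end point of the `b`-adic interval of a word -/
noncomputable def tau (b : ℕ) {k : ℕ} (w : Fin k → ℝ) : ℝ := ∑ j : Fin k, w j / (b : ℝ) ^ (j.val + 1)

lemma orb_eq (hb : 2 ≤ b) (k : ℕ) (n : ℕ) :
    orb b x n = tau b (fun j : Fin k => (digit b x (n + j) : ℝ)) + orb b x (n + k) / (b : ℝ) ^ k := by
  have hb0 : (b : ℝ) ≠ 0 := by positivity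
  induction k with
  | zero => simp [tau]
  | succ k ih =>
    rw [ih]
    unfold tau
    rw [Fin.sum_univ_castSucc]
    simp only [Fin.val_castSucc, Fin.val_last]
    have h := orb_succ (x := x) hb (n + k)
    have h2 : orb b x (n + k) / (b : ℝ) ^ k
        = (digit b x (n + k) : ℝ) / (b : ℝ) ^ (k + 1) + orb b x (n + (k + 1)) / (b : ℝ) ^ (k + 1) := by
      rw [← add_div, ← add_assoc, ← h, pow_succ]
      field_simp
    rw [h2]
    ring

/-- The word of length `k` at position `n`, as a tuple in `Fin b`. -/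
noncomputable def word (hb : 2 ≤ b) (x : ℝ) (k n : ℕ) : Fin k → Fin b := fun j =>
  ⟨(digit b x (n + j)).toNat, by
    have h1 := digit_nonneg (x := x) hb (n + j)
    have h2 := digit_lt (x := x) hb (n + j)
    omega⟩

lemma word_eq_iff (hb : 2 ≤ b) (k n : ℕ) (w : Fin k → Fin b) :
    word hb x k n = w ↔ ∀ j : Fin k, digit b x (n + j) = ((w j : ℕ) : ℤ) := by
  constructor
  · rintro rfl j
    have h1 := digit_nonneg (x := x) hb (n + j)
    simp only [word]
    omega
  · intro h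
    funext j
    apply Fin.ext
    simp only [word]
    rw [h j]
    simp

lemma word_cast (hb : 2 ≤ b) (k n : ℕ) (j : Fin k) :
    ((word hb x k n j : ℕ) : ℝ) = (digit b x (n + j) : ℝ) := by
  have h := (word_eq_iff hb k n (word hb x k n)).mp rfl j
  rw [h]
  norm_cast

lemma orb_eq' (hb : 2 ≤ b) (k : ℕ) (n : ℕ) :
    orb b x n = tau b (fun j : Fin k => ((word hb x k n j : ℕ) : ℝ)) + orb b x (n + k) / (b : ℝ) ^ k := by
  simp only [word_cast]
  exact orb_eq hb k n

lemma ee_orb (h : ℤ) (n : ℕ) : ee (h * (x * (b : ℝ) ^ n)) = ee (h * orb b x n) := by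
  have : (h : ℝ) * (x * (b : ℝ) ^ n) = h * orb b x n + ((h * ⌊x * (b : ℝ) ^ n⌋ : ℤ) : ℝ) := by
    unfold orb; rw [Int.fract]; push_cast; ring
  rw [this, ee_add_int]

lemma sum_ee_tau (b k : ℕ) (h : ℤ) :
    ∑ w : Fin k → Fin b, ee (h * tau b (fun j => ((w j : ℕ) : ℝ)))
      = ∏ j : Fin k, ∑ d : Fin b, ee (h * ((d : ℕ) : ℝ) / (b : ℝ) ^ (j.val + 1)) := by
  rw [Finset.prod_univ_sum, Fintype.piFinset_univ]
  refine Finset.sum_congr rfl fun w _ => ?_
  unfold tau
  rw [Finset.mul_sum]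
  have : ∀ s : Finset (Fin k), ee (∑ j ∈ s, (h : ℝ) * (((w j : ℕ) : ℝ) / (b : ℝ) ^ (j.val + 1)))
      = ∏ j ∈ s, ee (h * ((w j : ℕ) : ℝ) / (b : ℝ) ^ (j.val + 1)) := by
    intro s
    induction s using Finset.cons_induction with
    | empty => simp
    | cons a s ha ih =>
      rw [Finset.sum_cons, Finset.prod_cons, ee_add, ih, mul_div_assoc]
  exact this _

lemma geom_ee_zero (hb : 2 ≤ b) {h : ℤ} {j : ℕ} (h1 : ((b : ℤ) ^ j) ∣ h) (h2 : ¬ ((b : ℤ) ^ (j + 1)) ∣ h) :
    ∑ d : Fin b, ee (h * ((d : ℕ) : ℝ) / (b : ℝ) ^ (j + 1)) = 0 := by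
  have hb0 : (b : ℝ) ≠ 0 := by positivity
  obtain ⟨c, rfl⟩ := h1
  have hc : ¬ (b : ℤ) ∣ c := by
    intro hc
    apply h2
    rw [pow_succ]
    exact mul_dvd_mul_left _ hc
  set ω := ee ((c : ℝ) / b) with hω
  have hpow : ∀ d : ℕ, ω ^ d = ee (c * d / b) := by
    intro d
    induction d with
    | zero => simp
    | succ d ih =>
      rw [pow_succ, ih, hω, ← ee_add]
      congr 1
      push_cast
      ring
  have hterm : ∀ d : Fin b, ee ((((b : ℤ) ^ j * c : ℤ) : ℝ) * ((d : ℕ) : ℝ) / (b : ℝ) ^ (j + 1))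
      = ω ^ (d : ℕ) := by
    intro d
    rw [hpow]
    congr 1
    push_cast
    field_simp
    ring
  simp only [hterm]
  rw [Fin.sum_univ_eq_sum_range (fun d => ω ^ d) b]
  have hω1 : ω ≠ 1 := by
    intro h1
    unfold ee at hω
    rw [hω, Complex.exp_eq_one_iff] at h1
    obtain ⟨n, hn⟩ := h1
    apply hc
    refine ⟨n, ?_⟩
    have hpi : (2 * (Real.pi : ℂ) * Complex.I) ≠ 0 := Complex.two_pi_I_ne_zero
    have hn' : ((c : ℂ) / b) = n := by
      have : Complex.I * ((2 * Real.pi * ((c : ℝ) / b) : ℝ) : ℂ)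
          = ((c : ℂ) / b) * (2 * (Real.pi : ℂ) * Complex.I) := by push_cast; ring
      rw [this] at hn
      exact mul_right_cancel₀ hpi hn
    have hb0' : (b : ℂ) ≠ 0 := by exact_mod_cast hb0
    rw [div_eq_iff hb0'] at hn'
    have : (c : ℂ) = ((b * n : ℤ) : ℂ) := by rw [hn']; push_cast; ring
    exact_mod_cast this
  rw [geom_sum_eq hω1]
  have : ω ^ b = 1 := by
    rw [hpow]
    have : (c : ℝ) * b / b = c := by field_simp
    rw [this, ee_intCast]
  rw [this, sub_self, zero_div]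

lemma sum_ee_tau_eq_zero (hb : 2 ≤ b) {k : ℕ} {h : ℤ} (hk : ¬ ((b : ℤ) ^ k) ∣ h) :
    ∑ w : Fin k → Fin b, ee (h * tau b (fun j => ((w j : ℕ) : ℝ))) = 0 := by
  classical
  have hex : ∃ j, ¬ ((b : ℤ) ^ (j + 1)) ∣ h := by
    rcases Nat.eq_zero_or_pos k with rfl | hk0
    · simp at hk
    · exact ⟨k - 1, by rwa [Nat.sub_add_cancel hk0]⟩
  set j := Nat.find hex with hj
  have hj1 : ¬ ((b : ℤ) ^ (j + 1)) ∣ h := Nat.find_spec hex
  have hj2 : ((b : ℤ) ^ j) ∣ h := by
    rcases Nat.eq_zero_or_pos j with h0 | h0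
    · rw [h0]; simp
    · have := Nat.find_min hex (m := j - 1) (by omega)
      rw [not_not, Nat.sub_add_cancel h0] at this
      exact this
  have hjk : j < k := by
    by_contra hcon
    push Not at hcon
    exact hk ((pow_dvd_pow _ hcon).trans hj2)
  rw [sum_ee_tau]
  exact Finset.prod_eq_zero (i := (⟨j, hjk⟩ : Fin k)) (Finset.mem_univ _) (geom_ee_zero hb hj2 hj1)

/-- frequency of a word given as tuple in `Fin b` -/
lemma normal_word (hb : 2 ≤ b) (hx : IsNormal b x) {k : ℕ} (hk : 1 ≤ k) (w : Fin k → Fin b) :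
    Tendsto (fun N : ℕ => (((range N).filter fun n => word hb x k n = w).card : ℝ) / (N : ℝ))
      atTop (𝓝 (1 / (b : ℝ) ^ k)) := by
  have h := hx k hk (fun j => ((w j : ℕ) : ℤ)) (fun j => ⟨by positivity, by exact_mod_cast (w j).2⟩)
  simp only [word_eq_iff]
  exact h

lemma sum_word (hb : 2 ≤ b) (k N : ℕ) (F : (Fin k → Fin b) → ℂ) :
    ∑ n ∈ range N, F (word hb x k n)
      = ∑ w : Fin k → Fin b, (((range N).filter fun n => word hb x k n = w).card : ℂ) * F w := by
  rw [← Finset.sum_fiberwise (range N) (fun n => word hb x k n)]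
  refine Finset.sum_congr rfl fun w _ => ?_
  rw [Finset.sum_congr rfl (g := fun _ => F w) (fun n hn => by rw [(Finset.mem_filter.mp hn).2]),
    Finset.sum_const, nsmul_eq_mul]

/-- Normality implies that all exponential averages vanish. -/
theorem expZero_of_isNormal (hb : 2 ≤ b) (hx : IsNormal b x) :
    ExpZero (fun n => x * (b : ℝ) ^ n) := by
  intro h h0
  have hb1 : (1 : ℝ) < b := by exact_mod_cast (show 1 < b by omega)
  have hb0 : (0 : ℝ) < b := by positivity
  rw [Metric.tendsto_atTop]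
  intro ε hε
  -- choose the length of the words
  have hlim : Tendsto (fun k : ℕ => 2 * Real.pi * |(h : ℝ)| / (b : ℝ) ^ k) atTop (𝓝 0) :=
    Tendsto.div_atTop tendsto_const_nhds (tendsto_pow_atTop_atTop_of_one_lt hb1)
  obtain ⟨k₁, hk₁⟩ := (hlim.eventually (gt_mem_nhds (show (0:ℝ) < ε / 2 by positivity))).exists_forall_of_atTop
  set k := max k₁ (h.natAbs + 1) with hk
  have hk1 : 1 ≤ k := le_trans (by omega) (le_max_right _ _)
  have hkε : 2 * Real.pi * |(h : ℝ)| / (b : ℝ) ^ k < ε / 2 := hk₁ k (le_max_left _ _)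
  have hkdvd : ¬ ((b : ℤ) ^ k) ∣ h := by
    intro hdvd
    have h1 := Int.natAbs_dvd_natAbs.mpr hdvd
    rw [Int.natAbs_pow, Int.natAbs_natCast] at h1
    have h2 := Nat.le_of_dvd (Int.natAbs_pos.mpr h0) h1
    have h3 : k < b ^ k := Nat.lt_pow_self (by omega)
    have h4 : h.natAbs + 1 ≤ k := le_max_right _ _
    omega
  -- the main term
  have hmain : Tendsto (fun N : ℕ => ∑ w : Fin k → Fin b,
      ((((range N).filter fun n => word hb x k n = w).card : ℂ) / (N : ℂ))
        * ee (h * tau b (fun j => ((w j : ℕ) : ℝ)))) atTop (𝓝 0) := by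
    have h1 : (∑ w : Fin k → Fin b, ((1 / (b : ℝ) ^ k : ℝ) : ℂ)
        * ee (h * tau b (fun j => ((w j : ℕ) : ℝ)))) = 0 := by
      rw [← Finset.mul_sum, sum_ee_tau_eq_zero hb hkdvd, mul_zero]
    rw [← h1]
    refine tendsto_finsetSum _ fun w _ => Tendsto.mul_const _ ?_
    have h2 := (Complex.continuous_ofReal.tendsto _).comp (normal_word hb hx hk1 w)
    refine h2.congr fun N => ?_
    simp
  obtain ⟨N₀, hN₀⟩ := (Metric.tendsto_atTop.mp hmain) (ε / 2) (by positivity)
  refine ⟨N₀, fun N hN => ?_⟩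
  have hN' := hN₀ N hN
  rw [dist_zero_right] at hN' ⊢
  have hdiff : ‖(∑ n ∈ range N, ee (h * (x * (b : ℝ) ^ n))) / (N : ℂ)
      - ∑ w : Fin k → Fin b, ((((range N).filter fun n => word hb x k n = w).card : ℂ) / (N : ℂ))
        * ee (h * tau b (fun j => ((w j : ℕ) : ℝ)))‖ ≤ 2 * Real.pi * |(h : ℝ)| / (b : ℝ) ^ k := by
    have h1 : ∑ w : Fin k → Fin b, ((((range N).filter fun n => word hb x k n = w).card : ℂ) / (N : ℂ))
        * ee (h * tau b (fun j => ((w j : ℕ) : ℝ)))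
        = (∑ n ∈ range N, ee (h * tau b (fun j => ((word hb x k n j : ℕ) : ℝ)))) / (N : ℂ) := by
      rw [sum_word hb k N (fun w => ee (h * tau b (fun j => ((w j : ℕ) : ℝ)))), Finset.sum_div]
      exact Finset.sum_congr rfl fun w _ => by ring
    rw [h1, ← sub_div, ← Finset.sum_sub_distrib]
    refine avg_norm_le (by positivity) (fun n => ?_) N
    rw [ee_orb]
    refine (norm_ee_sub_ee_le _ _).trans ?_
    rw [← mul_sub, abs_mul, orb_eq' hb k n, add_sub_cancel_left]
    have h2 : |orb b x (n + k) / (b : ℝ) ^ k| ≤ 1 / (b : ℝ) ^ k := by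
      rw [abs_div, abs_of_pos (pow_pos hb0 k)]
      have : |orb b x (n + k)| ≤ 1 := by
        rw [abs_of_nonneg (Int.fract_nonneg _)]
        exact (Int.fract_lt_one _).le
      exact div_le_div_of_nonneg_right this (pow_pos hb0 k).le
    calc 2 * Real.pi * (|(h : ℝ)| * |orb b x (n + k) / (b : ℝ) ^ k|)
        ≤ 2 * Real.pi * (|(h : ℝ)| * (1 / (b : ℝ) ^ k)) := by gcongr
      _ = 2 * Real.pi * |(h : ℝ)| / (b : ℝ) ^ k := by ring
  calc ‖(∑ n ∈ range N, ee (h * (x * (b : ℝ) ^ n))) / (N : ℂ)‖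
      ≤ ‖(∑ n ∈ range N, ee (h * (x * (b : ℝ) ^ n))) / (N : ℂ)
      - ∑ w : Fin k → Fin b, ((((range N).filter fun n => word hb x k n = w).card : ℂ) / (N : ℂ))
        * ee (h * tau b (fun j => ((w j : ℕ) : ℝ)))‖
      + ‖∑ w : Fin k → Fin b, ((((range N).filter fun n => word hb x k n = w).card : ℂ) / (N : ℂ))
        * ee (h * tau b (fun j => ((w j : ℕ) : ℝ)))‖ := by
        have := norm_add_le ((∑ n ∈ range N, ee (h * (x * (b : ℝ) ^ n))) / (N : ℂ)
          - ∑ w : Fin k → Fin b, ((((range N).filter fun n => word hb x k n = w).card : ℂ) / (N : ℂ))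
          * ee (h * tau b (fun j => ((w j : ℕ) : ℝ))))
          (∑ w : Fin k → Fin b, ((((range N).filter fun n => word hb x k n = w).card : ℂ) / (N : ℂ))
          * ee (h * tau b (fun j => ((w j : ℕ) : ℝ))))
        rwa [sub_add_cancel] at this
    _ < ε := by linarith

/-- If all exponential averages vanish then `x` is normal. -/
theorem isNormal_of_expZero (hb : 2 ≤ b) (hx : ExpZero (fun n => x * (b : ℝ) ^ n)) :
    IsNormal b x := by
  classical
  intro k _ w hw
  have hb0 : (0 : ℝ) < b := by positivity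
  have hbk : (0 : ℝ) < (b : ℝ) ^ k := pow_pos hb0 k
  set W : Fin k → Fin b := fun j => ⟨(w j).toNat, by have := hw j; omega⟩ with hW
  have hWw : ∀ j, ((W j : ℕ) : ℤ) = w j := by
    intro j; have := hw j; simp only [hW]; omega
  set fr : ℕ → (Fin k → Fin b) → ℝ := fun N v =>
    (((range N).filter fun n => word hb x k n = v).card : ℝ) / (N : ℝ) with hfr
  have hgoal : (fun N : ℕ =>
      (((range N).filter fun n => ∀ j : Fin k, digit b x (n + j) = w j).card : ℝ) / (N : ℝ))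
      = fun N => fr N W := by
    funext N
    simp only [hfr, word_eq_iff, hWw]
  rw [hgoal]
  -- upper bound for every word
  have hupper : ∀ v : Fin k → Fin b, ∀ δ : ℝ, 0 < δ → ∀ᶠ N : ℕ in atTop,
      fr N v ≤ 1 / (b : ℝ) ^ k + δ := by
    intro v δ hδ
    set c : ℝ := tau b (fun j => ((v j : ℕ) : ℝ)) + 1 / (2 * (b : ℝ) ^ k) with hc
    have h1 := eventually_freq_le hx ((c : ℝ) : AddCircle (1 : ℝ))
      (ρ := 1 / (2 * (b : ℝ) ^ k)) (by positivity) hδ
    filter_upwards [h1] with N hN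
    have h2 : ((range N).filter fun n => word hb x k n = v).card
        ≤ ((range N).filter fun n => dist ((x * (b : ℝ) ^ n : ℝ) : AddCircle (1 : ℝ))
          ((c : ℝ) : AddCircle (1 : ℝ)) ≤ 1 / (2 * (b : ℝ) ^ k)).card := by
      refine Finset.card_le_card ?_
      intro n hn
      rw [Finset.mem_filter] at hn ⊢
      refine ⟨hn.1, ?_⟩
      have h3 : ((x * (b : ℝ) ^ n : ℝ) : AddCircle (1 : ℝ)) = ((orb b x n : ℝ) : AddCircle (1 : ℝ)) := by
        have : x * (b : ℝ) ^ n = orb b x n + ((⌊x * (b : ℝ) ^ n⌋ : ℤ) : ℝ) := by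
          unfold orb; rw [Int.fract]; ring
        rw [this, AddCircle.coe_add]
        have h4 : (((⌊x * (b : ℝ) ^ n⌋ : ℤ) : ℝ) : AddCircle (1 : ℝ)) = 0 := by
          rw [AddCircle.coe_eq_zero_iff]
          exact ⟨⌊x * (b : ℝ) ^ n⌋, by simp⟩
        rw [h4, add_zero]
      rw [h3]
      have h5 : |orb b x n - c| ≤ 1 / (2 * (b : ℝ) ^ k) := by
        have h6 := orb_eq' (x := x) hb k n
        rw [hn.2] at h6
        rw [h6, hc, add_sub_add_left_eq_sub]
        have h7 : 0 ≤ orb b x (n + k) := Int.fract_nonneg _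
        have h8 : orb b x (n + k) ≤ 1 := (Int.fract_lt_one _).le
        rw [abs_le]
        constructor
        · have : 0 ≤ orb b x (n + k) / (b : ℝ) ^ k := by positivity
          linarith
        · have : orb b x (n + k) / (b : ℝ) ^ k ≤ 1 / (b : ℝ) ^ k :=
            div_le_div_of_nonneg_right h8 hbk.le
          have h9 : 1 / (b : ℝ) ^ k = 1 / (2 * (b : ℝ) ^ k) + 1 / (2 * (b : ℝ) ^ k) := by
            field_simp; ring
          linarith
      have h10 : dist ((orb b x n : ℝ) : AddCircle (1 : ℝ)) ((c : ℝ) : AddCircle (1 : ℝ))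
          ≤ |orb b x n - c| := by
        rw [dist_eq_norm, ← AddCircle.coe_sub]
        exact QuotientAddGroup.norm_mk_le_norm
      exact h10.trans h5
    have h11 : fr N v ≤ (((range N).filter fun n => dist ((x * (b : ℝ) ^ n : ℝ) : AddCircle (1 : ℝ))
          ((c : ℝ) : AddCircle (1 : ℝ)) ≤ 1 / (2 * (b : ℝ) ^ k)).card : ℝ) / (N : ℝ) :=
      div_le_div_of_nonneg_right (by exact_mod_cast h2) (Nat.cast_nonneg N)
    refine h11.trans (hN.trans ?_)
    have : 2 * (1 / (2 * (b : ℝ) ^ k)) = 1 / (b : ℝ) ^ k := by field_simp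
    rw [this]
  -- the frequencies add up to one
  have hsum : ∀ᶠ N : ℕ in atTop, ∑ v, fr N v = 1 := by
    filter_upwards [eventually_gt_atTop 0] with N hN
    simp only [hfr]
    rw [← Finset.sum_div]
    have : ∑ v, (((range N).filter fun n => word hb x k n = v).card : ℝ) = N := by
      have h1 := Finset.card_eq_sum_card_fiberwise (f := fun n => word hb x k n) (s := range N)
        (t := (Finset.univ : Finset (Fin k → Fin b))) (fun _ _ => Finset.mem_coe.mpr (Finset.mem_univ _))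
      rw [card_range] at h1
      exact_mod_cast h1.symm
    rw [this]
    exact div_self (by exact_mod_cast hN.ne')
  have hcardv : ((Finset.univ : Finset (Fin k → Fin b)).card : ℝ) = (b : ℝ) ^ k := by
    rw [Finset.card_univ, Fintype.card_fun, Fintype.card_fin, Fintype.card_fin]
    push_cast; rfl
  rw [Metric.tendsto_atTop]
  intro ε hε
  have hall : ∀ᶠ N : ℕ in atTop, ∀ v : Fin k → Fin b,
      fr N v ≤ 1 / (b : ℝ) ^ k + ε / (2 * (b : ℝ) ^ k) :=
    eventually_all.mpr fun v => hupper v _ (by positivity)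
  obtain ⟨N₀, hN₀⟩ := (hall.and hsum).exists_forall_of_atTop
  refine ⟨N₀, fun N hN => ?_⟩
  obtain ⟨h1, h2⟩ := hN₀ N hN
  have h1le : 1 ≤ (b : ℝ) ^ k := one_le_pow₀ (by exact_mod_cast (show 1 ≤ b by omega))
  rw [Real.dist_eq, abs_lt]
  constructor
  · -- lower bound
    have h3 : 1 - fr N W ≤ ((b : ℝ) ^ k - 1) * (1 / (b : ℝ) ^ k + ε / (2 * (b : ℝ) ^ k)) := by
      have h2' : 1 - fr N W = ∑ v ∈ Finset.univ.erase W, fr N v := by
        have := Finset.add_sum_erase Finset.univ (fun v => fr N v) (Finset.mem_univ W)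
        rw [h2] at this
        linarith
      calc 1 - fr N W = ∑ v ∈ Finset.univ.erase W, fr N v := h2'
        _ ≤ ∑ _v ∈ Finset.univ.erase W, (1 / (b : ℝ) ^ k + ε / (2 * (b : ℝ) ^ k)) :=
            Finset.sum_le_sum fun v _ => h1 v
        _ = ((b : ℝ) ^ k - 1) * (1 / (b : ℝ) ^ k + ε / (2 * (b : ℝ) ^ k)) := by
            rw [Finset.sum_const, nsmul_eq_mul, Finset.card_erase_of_mem (Finset.mem_univ W),
              Nat.cast_sub (Finset.card_pos.mpr ⟨W, Finset.mem_univ _⟩), hcardv]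
            simp
    have h4 : ((b : ℝ) ^ k - 1) * (1 / (b : ℝ) ^ k + ε / (2 * (b : ℝ) ^ k))
        ≤ 1 - 1 / (b : ℝ) ^ k + ε / 2 := by
      have e1 : ((b : ℝ) ^ k - 1) * (1 / (b : ℝ) ^ k + ε / (2 * (b : ℝ) ^ k))
          = 1 - 1 / (b : ℝ) ^ k + ε / 2 - ε / (2 * (b : ℝ) ^ k) := by
        field_simp; ring
      rw [e1]
      have : 0 ≤ ε / (2 * (b : ℝ) ^ k) := by positivity
      linarith
    linarith
  · have h5 := h1 W
    have h6 : ε / (2 * (b : ℝ) ^ k) ≤ ε / 2 := by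
      apply div_le_div_of_nonneg_left hε.le (by norm_num)
      linarith
    linarith

end Pool.Agent.Lib.MP_5b6025_nt
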