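import Mathlib

/-!
Digits and normality, with the conventions of the problem file.
-/

open Filter Topology Finset

namespace Pool.Agent.Lib.MP_5b6025_nt

/-- The `(n+1)`-st digit after the point of `x` in base `b` (that is `d_{n+1}`). -/
noncomputable def digit (b : ℕ) (x : ℝ) (n : ℕ) : ℤ := ⌊x * (b : ℝ) ^ (n + 1)⌋ % (b : ℤ)

/-- `x` is normal in base `b`: every word `w` of length `k ≥ 1` over `{0, …, b-1}` occurs in the
digit sequence with limiting frequency `b^(-k)`. -/
def IsNormal (b : ℕ) (x : ℝ) : Prop :=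
  ∀ k : ℕ, 1 ≤ k → ∀ w : Fin k → ℤ, (∀ j, 0 ≤ w j ∧ w j < (b : ℤ)) →
    Tendsto
      (fun N : ℕ =>
        (((range N).filter fun n => ∀ j : Fin k, digit b x (n + j) = w j).card : ℝ) / (N : ℝ))
      atTop (𝓝 (1 / (b : ℝ) ^ k))

end Pool.Agent.Lib.MP_5b6025_nt
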