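import Pool.Agent.Lib.MP_5b6025_nt.Weyl

/-!
Sums over residue classes modulo `m` of a digit function, and their finite Fourier transform.
-/

open Filter Topology Finset

namespace Pool.Agent.Lib.MP_5b6025_nt

/-- `G t = g (⌊b t⌋ mod b)` -/
noncomputable def Gd (b : ℕ) (g : ℤ → ℝ) (t : ℝ) : ℝ := g (⌊(b : ℝ) * t⌋ % (b : ℤ))

lemma Gd_add_int (b : ℕ) (g : ℤ → ℝ) (t : ℝ) (z : ℤ) : Gd b g (t + z) = Gd b g t := by
  unfold Gd
  have : (b : ℝ) * (t + z) = (b : ℝ) * t + ((b * z : ℤ) : ℝ) := by push_cast; ring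
  rw [this, Int.floor_add_intCast, Int.add_mul_emod_self_left]

/-- a function of integers depending only on the class modulo `m` -/
lemma sum_zmod {M : Type*} [AddCommMonoid M] (m : ℕ) [NeZero m] (F : ZMod m → M) (s : ℤ) :
    ∑ a : ZMod m, F a = ∑ z ∈ Ico s (s + m), F (z : ZMod m) := by
  symm
  have hm : (0 : ℤ) < m := by exact_mod_cast Nat.pos_of_ne_zero (NeZero.ne m)
  refine Finset.sum_bij' (fun z _ => (z : ZMod m)) (fun a _ => s + ((a - (s : ZMod m)).val : ℤ))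
    ?_ ?_ ?_ ?_ ?_
  · intro z _; exact Finset.mem_univ _
  · intro a _
    rw [Finset.mem_Ico]
    have := ZMod.val_lt (a - (s : ZMod m))
    constructor
    · omega
    · omega
  · intro z hz
    rw [Finset.mem_Ico] at hz
    have h1 : ((z : ZMod m) - (s : ZMod m)) = (((z - s).toNat : ℕ) : ZMod m) := by
      have : (((z - s).toNat : ℕ) : ZMod m) = (((z - s).toNat : ℤ) : ZMod m) := by push_cast; rfl
      rw [this, Int.toNat_of_nonneg (by omega)]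
      push_cast; rfl
    rw [h1, ZMod.val_natCast, Nat.mod_eq_of_lt (by omega)]
    omega
  · intro a _
    push_cast
    rw [ZMod.natCast_zmod_val]
    ring
  · intro z _; rfl

/-- the shifted digit function on residues -/
noncomputable def phi (b m : ℕ) (g : ℤ → ℝ) (t : ℝ) (a : ZMod m) : ℝ :=
  Gd b g (t + (a.val : ℝ) / m)

lemma exists_val_eq (m : ℕ) [NeZero m] (z : ℤ) :
    ∃ k : ℤ, z = ((z : ZMod m).val : ℤ) + m * k := by
  refine ⟨z / m, ?_⟩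
  rw [ZMod.val_intCast]
  exact (Int.emod_add_mul_ediv z m).symm

lemma phi_intCast (b m : ℕ) [NeZero m] (g : ℤ → ℝ) (t : ℝ) (z : ℤ) :
    phi b m g t (z : ZMod m) = Gd b g (t + (z : ℝ) / m) := by
  obtain ⟨k, hk⟩ := exists_val_eq m z
  have hm : (m : ℝ) ≠ 0 := by exact_mod_cast NeZero.ne m
  unfold phi
  have : t + (z : ℝ) / m = (t + (((z : ZMod m).val : ℕ) : ℝ) / m) + (k : ℝ) := by
    conv_lhs => rw [hk]
    push_cast
    field_simp
    ring
  rw [this, Gd_add_int]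

/-- the character `a ↦ e(c a / m)` -/
noncomputable def chi (m : ℕ) (c : ℤ) (a : ZMod m) : ℂ := ee (c * (a.val : ℝ) / m)

lemma norm_chi (m : ℕ) (c : ℤ) (a : ZMod m) : ‖chi m c a‖ = 1 := norm_ee _

lemma chi_intCast (m : ℕ) [NeZero m] (c z : ℤ) :
    chi m c (z : ZMod m) = ee (c * (z : ℝ) / m) := by
  obtain ⟨k, hk⟩ := exists_val_eq m z
  have hm : (m : ℝ) ≠ 0 := by exact_mod_cast NeZero.ne m
  unfold chi
  have : (c : ℝ) * (z : ℝ) / m = c * (((z : ZMod m).val : ℕ) : ℝ) / m + ((c * k : ℤ) : ℝ) := by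
    conv_lhs => rw [hk]
    push_cast
    field_simp
  rw [this, ee_add_int]

lemma chi_congr (m : ℕ) [NeZero m] {c c' : ℤ} (h : (m : ℤ) ∣ c - c') (a : ZMod m) :
    chi m c a = chi m c' a := by
  obtain ⟨k, hk⟩ := h
  have hm : (m : ℝ) ≠ 0 := by exact_mod_cast NeZero.ne m
  unfold chi
  have : (c : ℝ) * (a.val : ℝ) / m = c' * (a.val : ℝ) / m + ((k * a.val : ℤ) : ℝ) := by
    have : (c : ℝ) = c' + m * k := by
      have : c = c' + m * k := by linarith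
      exact_mod_cast this
    rw [this]
    push_cast
    field_simp
  rw [this, ee_add_int]

/-- moving a factor from the frequency to the residue -/
lemma chi_mul (m : ℕ) [NeZero m] (c z : ℤ) (a : ZMod m) :
    chi m c ((z : ZMod m) * a) = chi m (c * z) a := by
  have h1 : (z : ZMod m) * a = ((z * (a.val : ℤ) : ℤ) : ZMod m) := by
    push_cast
    rw [ZMod.natCast_zmod_val]
  rw [h1, chi_intCast]
  unfold chi
  congr 1
  push_cast
  ring

lemma ee_eq_one_iff (t : ℝ) : ee t = 1 ↔ ∃ n : ℤ, t = n := by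
  unfold ee
  rw [Complex.exp_eq_one_iff]
  have key : ∀ n : ℤ, Complex.I * ((2 * Real.pi * t : ℝ) : ℂ) = n * (2 * (Real.pi : ℂ) * Complex.I)
      ↔ t = n := by
    intro n
    have hpi : (2 * (Real.pi : ℂ) * Complex.I) ≠ 0 := Complex.two_pi_I_ne_zero
    have : Complex.I * ((2 * Real.pi * t : ℝ) : ℂ) = (t : ℂ) * (2 * (Real.pi : ℂ) * Complex.I) := by
      push_cast; ring
    rw [this, mul_left_inj' hpi]
    constructor
    · intro h; exact_mod_cast h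
    · intro h; exact_mod_cast h
  exact exists_congr key

/-- geometric telescoping -/
lemma one_sub_mul_geom (c : ℤ) (m : ℕ) {s s' : ℤ} (h : s ≤ s') :
    (1 - ee (c / m)) * ∑ z ∈ Ico s s', ee (c * (z : ℝ) / m)
      = ee (c * (s : ℝ) / m) - ee (c * (s' : ℝ) / m) := by
  obtain ⟨k, rfl⟩ := Int.le.dest h
  clear h
  induction k with
  | zero => simp
  | succ k ih =>
    have h1 : Ico s (s + ((k + 1 : ℕ) : ℤ)) = insert (s + (k : ℤ)) (Ico s (s + (k : ℤ))) := by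
      ext z
      simp only [Finset.mem_Ico, Finset.mem_insert]
      push_cast
      omega
    have h2 : (s + (k : ℤ)) ∉ Ico s (s + (k : ℤ)) := by simp
    rw [h1, Finset.sum_insert h2, mul_add, ih, sub_mul, one_mul, ← ee_add]
    have h3 : (c : ℝ) / m + c * ((s + (k : ℤ) : ℤ) : ℝ) / m
        = c * ((s + ((k + 1 : ℕ) : ℤ) : ℤ) : ℝ) / m := by
      push_cast
      ring
    rw [h3]
    ring

lemma sum_chi_eq_zero (m : ℕ) [NeZero m] {c : ℤ} (hc : ¬ (m : ℤ) ∣ c) :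
    ∑ a : ZMod m, chi m c a = 0 := by
  have hm : (m : ℝ) ≠ 0 := by exact_mod_cast NeZero.ne m
  have h1 : (1 - ee (c / m)) * ∑ a : ZMod m, chi m c a = 0 := by
    rw [sum_zmod m (chi m c) 0]
    simp only [chi_intCast]
    rw [one_sub_mul_geom c m (by positivity)]
    have : (c : ℝ) * ((0 + (m : ℤ) : ℤ) : ℝ) / m = c := by
      push_cast; field_simp; ring
    rw [this, ee_intCast]
    simp
  rcases mul_eq_zero.mp h1 with h | h
  · exfalso
    apply hc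
    have h2 : ee ((c : ℝ) / m) = 1 := (sub_eq_zero.mp h).symm
    rw [ee_eq_one_iff] at h2
    obtain ⟨n, hn⟩ := h2
    refine ⟨n, ?_⟩
    rw [div_eq_iff hm] at hn
    have : (c : ℝ) = ((m * n : ℤ) : ℝ) := by rw [hn]; push_cast; ring
    exact_mod_cast this
  · exact h

/-- block boundaries -/
noncomputable def sd (b m : ℕ) (t : ℝ) (d : ℕ) : ℤ := ⌈(m : ℝ) * ((d : ℝ) / b - t)⌉

lemma sd_mono {b : ℕ} (hb : 2 ≤ b) (m : ℕ) (t : ℝ) : Monotone (sd b m t) := by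
  intro d d' h
  have hb0 : (0 : ℝ) < b := by positivity
  unfold sd
  apply Int.ceil_le_ceil
  have : (d : ℝ) ≤ d' := by exact_mod_cast h
  gcongr

lemma sd_top {b : ℕ} (hb : 2 ≤ b) (m : ℕ) (t : ℝ) : sd b m t b = sd b m t 0 + m := by
  have hb0 : (b : ℝ) ≠ 0 := by positivity
  unfold sd
  have : (m : ℝ) * ((b : ℝ) / b - t) = (m : ℝ) * (((0 : ℕ) : ℝ) / b - t) + (m : ℕ) := by
    rw [div_self hb0]; push_cast; ring
  rw [this, Int.ceil_add_natCast]

lemma sd_le {b : ℕ} (m : ℕ) (t : ℝ) (d : ℕ) :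
    (m : ℝ) * ((d : ℝ) / b - t) ≤ sd b m t d := Int.le_ceil _

lemma sd_lt {b : ℕ} (m : ℕ) (t : ℝ) (d : ℕ) :
    (sd b m t d : ℝ) < (m : ℝ) * ((d : ℝ) / b - t) + 1 := Int.ceil_lt_add_one _

lemma sum_Ico_mono {M : Type*} [AddCommMonoid M] (F : ℤ → M) {s : ℕ → ℤ} (hs : Monotone s) (n : ℕ) :
    ∑ z ∈ Ico (s 0) (s n), F z = ∑ d ∈ range n, ∑ z ∈ Ico (s d) (s (d + 1)), F z := by
  induction n with
  | zero => simp
  | succ n ih =>
    rw [Finset.sum_range_succ, ← ih, ← Finset.sum_union, Finset.Ico_union_Ico_eq_Ico]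
    · exact hs (Nat.zero_le _)
    · exact hs (Nat.le_succ _)
    · exact Finset.Ico_disjoint_Ico_consecutive _ _ _

lemma Gd_block {b : ℕ} (hb : 2 ≤ b) (m : ℕ) [NeZero m] (g : ℤ → ℝ) (t : ℝ) {d : ℕ} (hd : d < b)
    {z : ℤ} (hz : z ∈ Ico (sd b m t d) (sd b m t (d + 1))) :
    Gd b g (t + (z : ℝ) / m) = g d := by
  have hb0 : (0 : ℝ) < b := by positivity
  have hm : (0 : ℝ) < m := by exact_mod_cast Nat.pos_of_ne_zero (NeZero.ne m)
  rw [Finset.mem_Ico] at hz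
  have h1 : (m : ℝ) * ((d : ℝ) / b - t) ≤ z := Int.ceil_le.mp hz.1
  have h2 : (z : ℝ) < (m : ℝ) * (((d + 1 : ℕ) : ℝ) / b - t) := Int.lt_ceil.mp hz.2
  have h3 : ⌊(b : ℝ) * (t + (z : ℝ) / m)⌋ = d := by
    rw [Int.floor_eq_iff]
    constructor
    · have : (d : ℝ) / b ≤ t + z / m := by
        have : (d : ℝ) / b - t ≤ z / m := by rw [le_div_iff₀ hm]; linarith
        linarith
      rw [div_le_iff₀ hb0] at this
      push_cast
      linarith
    · have : t + z / m < ((d : ℝ) + 1) / b := by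
        have : z / m < ((d : ℝ) + 1) / b - t := by
          rw [div_lt_iff₀ hm]; push_cast at h2; linarith
        linarith
      rw [lt_div_iff₀ hb0] at this
      push_cast
      linarith
  unfold Gd
  rw [h3, Int.emod_eq_of_lt (by positivity) (by exact_mod_cast hd)]

/-- finite Fourier transform of the shifted digit function -/
noncomputable def TT (b m : ℕ) [NeZero m] (g : ℤ → ℝ) (c : ℤ) (t : ℝ) : ℂ :=
  ∑ a : ZMod m, (phi b m g t a : ℂ) * chi m (-c) a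

lemma TT_congr (b m : ℕ) [NeZero m] (g : ℤ → ℝ) {c c' : ℤ} (h : (m : ℤ) ∣ c - c') (t : ℝ) :
    TT b m g c t = TT b m g c' t := by
  unfold TT
  refine Finset.sum_congr rfl fun a _ => ?_
  rw [chi_congr m (c := -c) (c' := -c')]
  have : -c - -c' = -(c - c') := by ring
  rw [this]
  exact (dvd_neg).mpr h

lemma sum_phi_eq {b : ℕ} (hb : 2 ≤ b) (m : ℕ) [NeZero m] (g : ℤ → ℝ) (t : ℝ) :
    ∑ a : ZMod m, phi b m g t a
      = ∑ d ∈ range b, g d * ((sd b m t (d + 1) : ℝ) - (sd b m t d : ℝ)) := by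
  rw [sum_zmod m _ (sd b m t 0), ← sd_top hb, sum_Ico_mono _ (sd_mono hb m t)]
  refine Finset.sum_congr rfl fun d hd => ?_
  rw [Finset.sum_congr rfl (g := fun _ => g d) (fun z hz => by
    rw [phi_intCast]; exact Gd_block hb m g t (Finset.mem_range.mp hd) hz)]
  rw [Finset.sum_const, Int.card_Ico, nsmul_eq_mul, mul_comm]
  congr 1
  have h := sd_mono hb m t (Nat.le_succ d)
  have h2 : (((sd b m t (d + 1) - sd b m t d).toNat : ℤ) : ℝ)
      = ((sd b m t (d + 1) - sd b m t d : ℤ) : ℝ) := by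
    rw [Int.toNat_of_nonneg (by simpa using h)]
  push_cast at h2
  exact_mod_cast h2

lemma abs_sum_phi_sub_le {b : ℕ} (hb : 2 ≤ b) (m : ℕ) [NeZero m] (g : ℤ → ℝ) (t : ℝ) :
    |∑ a : ZMod m, phi b m g t a - m * ((∑ d ∈ range b, g d) / b)| ≤ ∑ d ∈ range b, |g d| := by
  rw [sum_phi_eq hb]
  have hb0 : (b : ℝ) ≠ 0 := by positivity
  have h1 : ∑ d ∈ range b, g d * ((sd b m t (d + 1) : ℝ) - (sd b m t d : ℝ))
      - m * ((∑ d ∈ range b, g d) / b)
      = ∑ d ∈ range b, g d * ((sd b m t (d + 1) : ℝ) - (sd b m t d : ℝ) - m / b) := by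
    rw [← mul_div_assoc, Finset.mul_sum, Finset.sum_div, ← Finset.sum_sub_distrib]
    exact Finset.sum_congr rfl fun d _ => by ring
  rw [h1]
  refine (Finset.abs_sum_le_sum_abs _ _).trans (Finset.sum_le_sum fun d _ => ?_)
  rw [abs_mul]
  have h2 := sd_le (b := b) m t d
  have h3 := sd_lt (b := b) m t d
  have h4 := sd_le (b := b) m t (d + 1)
  have h5 := sd_lt (b := b) m t (d + 1)
  have h6 : (m : ℝ) * (((d + 1 : ℕ) : ℝ) / b - t) = (m : ℝ) * ((d : ℝ) / b - t) + m / b := by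
    push_cast; ring
  rw [h6] at h4 h5
  have h7 : |(sd b m t (d + 1) : ℝ) - (sd b m t d : ℝ) - m / b| ≤ 1 := by
    rw [abs_le]
    constructor <;> linarith
  calc |g d| * |(sd b m t (d + 1) : ℝ) - (sd b m t d : ℝ) - m / b| ≤ |g d| * 1 := by gcongr
    _ = |g d| := mul_one _

lemma one_sub_mul_TT {b : ℕ} (hb : 2 ≤ b) (m : ℕ) [NeZero m] (g : ℤ → ℝ) (c : ℤ) (t : ℝ) :
    (1 - ee (((-c : ℤ) : ℝ) / m)) * TT b m g c t
      = ∑ d ∈ range b, (g d : ℂ) * (ee (((-c : ℤ) : ℝ) * (sd b m t d : ℝ) / m)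
        - ee (((-c : ℤ) : ℝ) * (sd b m t (d + 1) : ℝ) / m)) := by
  unfold TT
  rw [sum_zmod m _ (sd b m t 0), ← sd_top hb, sum_Ico_mono _ (sd_mono hb m t), Finset.mul_sum]
  refine Finset.sum_congr rfl fun d hd => ?_
  rw [Finset.sum_congr rfl (g := fun z : ℤ => (g d : ℂ) * ee (((-c : ℤ) : ℝ) * (z : ℝ) / m)) (fun z hz => by
    rw [phi_intCast, Gd_block hb m g t (Finset.mem_range.mp hd) hz, chi_intCast])]
  rw [← Finset.mul_sum, ← one_sub_mul_geom (-c) m (sd_mono hb m t (Nat.le_succ d))]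
  ring

/-- the local Fourier coefficient -/
noncomputable def kap (b : ℕ) (g : ℤ → ℝ) (c : ℤ) : ℂ :=
  ∑ d ∈ range b, (g d : ℂ) * (ee (((-c : ℤ) : ℝ) * (d : ℝ) / b)
        - ee (((-c : ℤ) : ℝ) * ((d + 1 : ℕ) : ℝ) / b))

lemma norm_ee_sd_sub_le {b : ℕ} (m : ℕ) [NeZero m] (c : ℤ) (t : ℝ) (d : ℕ) :
    ‖ee (((-c : ℤ) : ℝ) * (sd b m t d : ℝ) / m) - ee (c * t) * ee (((-c : ℤ) : ℝ) * (d : ℝ) / b)‖
      ≤ 2 * Real.pi * |(c : ℝ)| / m := by
  have hm : (0 : ℝ) < m := by exact_mod_cast Nat.pos_of_ne_zero (NeZero.ne m)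
  rw [← ee_add]
  refine (norm_ee_sub_ee_le _ _).trans ?_
  have h1 := sd_le (b := b) m t d
  have h2 := sd_lt (b := b) m t d
  have h3 : |((-c : ℤ) : ℝ) * (sd b m t d : ℝ) / m - (c * t + ((-c : ℤ) : ℝ) * (d : ℝ) / b)|
      ≤ |(c : ℝ)| / m := by
    have e1 : ((-c : ℤ) : ℝ) * (sd b m t d : ℝ) / m - (c * t + ((-c : ℤ) : ℝ) * (d : ℝ) / b)
        = (-c) * (((sd b m t d : ℝ) - (m : ℝ) * ((d : ℝ) / b - t)) / m) := by
      push_cast
      field_simp
      ring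
    rw [e1, abs_mul, abs_neg, abs_div, abs_of_pos hm, ← mul_div_assoc]
    have e2 : |(sd b m t d : ℝ) - (m : ℝ) * ((d : ℝ) / b - t)| ≤ 1 := by
      rw [abs_le]; constructor <;> linarith
    gcongr
    calc |(c : ℝ)| * |(sd b m t d : ℝ) - (m : ℝ) * ((d : ℝ) / b - t)| ≤ |(c : ℝ)| * 1 := by gcongr
      _ = |(c : ℝ)| := mul_one _
  calc _ ≤ 2 * Real.pi * (|(c : ℝ)| / m) := by
        refine mul_le_mul_of_nonneg_left h3 (by positivity)
    _ = _ := by ring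

lemma norm_one_sub_mul_TT_sub_le {b : ℕ} (hb : 2 ≤ b) (m : ℕ) [NeZero m] (g : ℤ → ℝ) (c : ℤ) (t : ℝ) :
    ‖(1 - ee (((-c : ℤ) : ℝ) / m)) * TT b m g c t - ee (c * t) * kap b g c‖
      ≤ 4 * Real.pi * |(c : ℝ)| / m * ∑ d ∈ range b, |g d| := by
  rw [one_sub_mul_TT hb]
  unfold kap
  rw [Finset.mul_sum, ← Finset.sum_sub_distrib, Finset.mul_sum]
  refine (norm_sum_le _ _).trans (Finset.sum_le_sum fun d _ => ?_)
  have e1 : (g d : ℂ) * (ee (((-c : ℤ) : ℝ) * (sd b m t d : ℝ) / m)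
        - ee (((-c : ℤ) : ℝ) * (sd b m t (d + 1) : ℝ) / m))
      - ee (c * t) * ((g d : ℂ) * (ee (((-c : ℤ) : ℝ) * (d : ℝ) / b)
        - ee (((-c : ℤ) : ℝ) * ((d + 1 : ℕ) : ℝ) / b)))
      = (g d : ℂ) * ((ee (((-c : ℤ) : ℝ) * (sd b m t d : ℝ) / m)
          - ee (c * t) * ee (((-c : ℤ) : ℝ) * (d : ℝ) / b))
        - (ee (((-c : ℤ) : ℝ) * (sd b m t (d + 1) : ℝ) / m)
          - ee (c * t) * ee (((-c : ℤ) : ℝ) * ((d + 1 : ℕ) : ℝ) / b))) := by ring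
  rw [e1, norm_mul, Complex.norm_real, Real.norm_eq_abs]
  have e2 := norm_ee_sd_sub_le (b := b) m c t d
  have e3 := norm_ee_sd_sub_le (b := b) m c t (d + 1)
  calc |g d| * _ ≤ |g d| * (2 * Real.pi * |(c : ℝ)| / m + 2 * Real.pi * |(c : ℝ)| / m) := by
        refine mul_le_mul_of_nonneg_left ?_ (abs_nonneg _)
        exact (norm_sub_le _ _).trans (add_le_add e2 e3)
    _ = _ := by ring

lemma norm_one_sub_mul_TT_le {b : ℕ} (hb : 2 ≤ b) (m : ℕ) [NeZero m] (g : ℤ → ℝ) (c : ℤ) (t : ℝ) :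
    ‖(1 - ee (((-c : ℤ) : ℝ) / m)) * TT b m g c t‖ ≤ 2 * ∑ d ∈ range b, |g d| := by
  rw [one_sub_mul_TT hb, Finset.mul_sum]
  refine (norm_sum_le _ _).trans (Finset.sum_le_sum fun d _ => ?_)
  rw [norm_mul, Complex.norm_real, Real.norm_eq_abs]
  have : ‖ee (((-c : ℤ) : ℝ) * (sd b m t d : ℝ) / m)
        - ee (((-c : ℤ) : ℝ) * (sd b m t (d + 1) : ℝ) / m)‖ ≤ 2 := by
    refine (norm_sub_le _ _).trans ?_
    rw [norm_ee, norm_ee]; norm_num
  calc _ ≤ |g d| * 2 := by gcongr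
    _ = _ := by ring

lemma kap_eq (b : ℕ) (g : ℤ → ℝ) (c : ℤ) :
    kap b g c = (1 - ee (((-c : ℤ) : ℝ) / b)) * ∑ d ∈ range b, (g d : ℂ) * ee (((-c : ℤ) : ℝ) * (d : ℝ) / b) := by
  unfold kap
  rw [Finset.mul_sum]
  refine Finset.sum_congr rfl fun d _ => ?_
  have : ((-c : ℤ) : ℝ) * ((d + 1 : ℕ) : ℝ) / b = ((-c : ℤ) : ℝ) / b + ((-c : ℤ) : ℝ) * (d : ℝ) / b := by
    push_cast; ring
  rw [this, ee_add]
  ring

lemma kap_eq_zero {b : ℕ} (hb : 2 ≤ b) (g : ℤ → ℝ) {c : ℤ} (h : (b : ℤ) ∣ c) : kap b g c = 0 := by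
  rw [kap_eq]
  obtain ⟨k, rfl⟩ := h
  have hb0 : (b : ℝ) ≠ 0 := by positivity
  have : ((-((b : ℤ) * k) : ℤ) : ℝ) / b = ((-k : ℤ) : ℝ) := by
    push_cast; field_simp
  rw [this, ee_intCast, sub_self, zero_mul]

lemma kap_ne_zero {b : ℕ} (hb : 2 ≤ b) (g : ℤ → ℝ)
    (hg : ∀ j : ℕ, 1 ≤ j → j < b → ∑ d ∈ range b, (g d : ℂ) * ee (-((j : ℝ) * d / b)) ≠ 0)
    {c : ℤ} (h : ¬ (b : ℤ) ∣ c) : kap b g c ≠ 0 := by
  have hb0 : (b : ℝ) ≠ 0 := by positivity
  rw [kap_eq]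
  refine mul_ne_zero ?_ ?_
  · intro h1
    apply h
    have h2 : ee (((-c : ℤ) : ℝ) / b) = 1 := (sub_eq_zero.mp h1).symm
    rw [ee_eq_one_iff] at h2
    obtain ⟨n, hn⟩ := h2
    rw [div_eq_iff hb0] at hn
    refine ⟨-n, ?_⟩
    have : (((-c : ℤ)) : ℝ) = ((n * b : ℤ) : ℝ) := by rw [hn]; push_cast; ring
    have : -c = n * b := by exact_mod_cast this
    linarith
  · have hbpos : (0 : ℤ) < b := by positivity
    have h1 : 0 ≤ c % b := Int.emod_nonneg _ hbpos.ne'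
    have h2 : c % b < b := Int.emod_lt_of_pos _ hbpos
    have h3 : c % b ≠ 0 := fun h0 => h (Int.dvd_of_emod_eq_zero h0)
    have h4 := hg (c % b).toNat (by omega) (by omega)
    convert h4 using 3 with d hd
    have h5 : (((c % b).toNat : ℕ) : ℝ) = ((c % b : ℤ) : ℝ) := by
      have : (((c % b).toNat : ℤ) : ℝ) = ((c % b : ℤ) : ℝ) := by rw [Int.toNat_of_nonneg h1]
      exact_mod_cast this
    rw [h5]
    have h6 : ((-c : ℤ) : ℝ) * (d : ℝ) / b = -(((c % b : ℤ) : ℝ) * d / b) + ((-(c / b) * d : ℤ) : ℝ) := by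
      have h7 : (c : ℝ) = ((c % b : ℤ) : ℝ) + b * ((c / b : ℤ) : ℝ) := by
        exact_mod_cast (Int.emod_add_mul_ediv c b).symm
      rw [Int.cast_neg, h7]
      push_cast
      field_simp
      ring
    rw [h6, ee_add_int]

end Pool.Agent.Lib.MP_5b6025_nt
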