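import Mathlib

/-!
Exponential sums and the Weyl criterion (upper bound for closed arcs).
-/

open Filter Topology Finset

namespace Pool.Agent.Lib.MP_5b6025_nt

/-- `e(t) = exp(2 π i t)` -/
noncomputable def ee (t : ℝ) : ℂ := Complex.exp (Complex.I * ((2 * Real.pi * t : ℝ) : ℂ))

lemma norm_ee (t : ℝ) : ‖ee t‖ = 1 := by
  unfold ee
  rw [mul_comm]
  exact Complex.norm_exp_ofReal_mul_I _

lemma ee_add (s t : ℝ) : ee (s + t) = ee s * ee t := by
  unfold ee
  rw [← Complex.exp_add]
  congr 1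
  push_cast
  ring

@[simp] lemma ee_zero : ee 0 = 1 := by simp [ee]

lemma ee_intCast (n : ℤ) : ee n = 1 := by
  unfold ee
  rw [Complex.exp_eq_one_iff]
  exact ⟨n, by push_cast; ring⟩

lemma ee_natCast (n : ℕ) : ee n = 1 := by exact_mod_cast ee_intCast n

lemma ee_add_int (t : ℝ) (n : ℤ) : ee (t + n) = ee t := by
  rw [ee_add, ee_intCast, mul_one]

lemma ee_neg (t : ℝ) : ee (-t) = starRingEnd ℂ (ee t) := by
  unfold ee
  rw [← Complex.exp_conj]
  congr 1
  rw [map_mul, Complex.conj_I, Complex.conj_ofReal]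
  push_cast
  ring

lemma ee_mul_neg (t : ℝ) : ee t * ee (-t) = 1 := by
  rw [← ee_add, add_neg_cancel, ee_zero]

lemma ee_ne_zero (t : ℝ) : ee t ≠ 0 := Complex.exp_ne_zero _

lemma norm_ee_sub_one_le (t : ℝ) : ‖ee t - 1‖ ≤ 2 * Real.pi * |t| := by
  unfold ee
  refine Real.norm_exp_I_mul_ofReal_sub_one_le.trans ?_
  rw [Real.norm_eq_abs, abs_mul, abs_of_pos Real.two_pi_pos]

lemma norm_ee_sub_ee_le (s t : ℝ) : ‖ee s - ee t‖ ≤ 2 * Real.pi * |s - t| := by
  have h : ee s - ee t = ee t * (ee (s - t) - 1) := by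
    rw [mul_sub, ← ee_add, mul_one]; congr 2; ring
  rw [h, norm_mul, norm_ee, one_mul]
  exact norm_ee_sub_one_le _

lemma le_norm_ee_sub_one {t : ℝ} (ht : |t| ≤ 1 / 2) : 4 * |t| ≤ ‖ee t - 1‖ := by
  unfold ee
  rw [Complex.norm_exp_I_mul_ofReal_sub_one, Real.norm_eq_abs, abs_mul]
  have h1 : |2 * Real.pi * t / 2| ≤ Real.pi / 2 := by
    rw [abs_div, abs_mul, abs_of_pos Real.two_pi_pos, abs_of_pos (by norm_num : (0:ℝ) < 2)]
    nlinarith [Real.pi_pos]
  have h2 := Real.mul_abs_le_abs_sin h1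
  have h3 : 2 / Real.pi * |2 * Real.pi * t / 2| = 2 * |t| := by
    rw [abs_div, abs_mul, abs_of_pos Real.two_pi_pos, abs_of_pos (by norm_num : (0:ℝ) < 2)]
    field_simp
  rw [h3] at h2
  rw [abs_of_pos (by norm_num : (0:ℝ) < 2)]
  linarith

/-- All nontrivial exponential averages of the sequence `t` tend to zero. -/
def ExpZero (t : ℕ → ℝ) : Prop :=
  ∀ h : ℤ, h ≠ 0 → Tendsto (fun N : ℕ => (∑ n ∈ range N, ee (h * t n)) / (N : ℂ)) atTop (𝓝 0)

lemma fourier_eq_ee (h : ℤ) (t : ℝ) : fourier h (t : AddCircle (1 : ℝ)) = ee (h * t) := by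
  rw [fourier_coe_apply]
  unfold ee
  congr 1
  push_cast
  ring

lemma avg_norm_le {f : ℕ → ℂ} {C : ℝ} (hC : 0 ≤ C) (hf : ∀ n, ‖f n‖ ≤ C) (N : ℕ) :
    ‖(∑ n ∈ range N, f n) / (N : ℂ)‖ ≤ C := by
  rcases Nat.eq_zero_or_pos N with rfl | hN
  · simpa using hC
  rw [norm_div, Complex.norm_natCast, div_le_iff₀ (by exact_mod_cast hN)]
  calc ‖∑ n ∈ range N, f n‖ ≤ ∑ n ∈ range N, ‖f n‖ := norm_sum_le _ _
    _ ≤ ∑ _n ∈ range N, C := Finset.sum_le_sum fun n _ => hf n
    _ = C * N := by rw [Finset.sum_const, card_range, nsmul_eq_mul, mul_comm]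

open MeasureTheory AddCircle in
/-- Equidistribution against continuous functions. -/
lemma tendsto_avg_of_expZero {t : ℕ → ℝ} (ht : ExpZero t) (f : C(AddCircle (1 : ℝ), ℂ)) :
    Tendsto (fun N : ℕ => (∑ n ∈ range N, f (t n : AddCircle (1 : ℝ))) / (N : ℂ)) atTop
      (𝓝 (∫ x, f x ∂haarAddCircle)) := by
  set P : C(AddCircle (1 : ℝ), ℂ) → Prop := fun f =>
    Tendsto (fun N : ℕ => (∑ n ∈ range N, f (t n : AddCircle (1 : ℝ))) / (N : ℂ)) atTop
      (𝓝 (∫ x, f x ∂haarAddCircle)) with hP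
  have hint : ∀ f : C(AddCircle (1 : ℝ), ℂ), Integrable (fun x => f x) haarAddCircle :=
    fun f => f.continuous.integrable_of_hasCompactSupport
      (HasCompactSupport.of_compactSpace _)
  have hspan : ∀ f ∈ Submodule.span ℂ (Set.range (@fourier (1 : ℝ))), P f := by
    intro f hf
    induction hf using Submodule.span_induction with
    | mem x hx =>
      obtain ⟨h, rfl⟩ := hx
      rcases eq_or_ne h 0 with rfl | h0
      · have h1 : ∀ᶠ N : ℕ in atTop, (∑ n ∈ range N,
            (fourier 0 : C(AddCircle (1 : ℝ), ℂ)) (t n : AddCircle (1 : ℝ))) / (N : ℂ) = 1 := by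
          filter_upwards [eventually_gt_atTop 0] with N hN
          simp only [fourier_zero, Finset.sum_const, card_range, nsmul_eq_mul, mul_one]
          exact div_self (by exact_mod_cast hN.ne')
        have h2 : ∫ x : AddCircle (1 : ℝ), (fourier 0 : C(AddCircle (1 : ℝ), ℂ)) x ∂haarAddCircle
            = 1 := by
          simp only [fourier_zero, integral_const]
          simp
        change Tendsto _ _ (𝓝 _)
        rw [h2]
        exact tendsto_const_nhds.congr' (h1.mono fun N hN => hN.symm)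
      · have h2 : ∫ x : AddCircle (1 : ℝ), (fourier h : C(AddCircle (1 : ℝ), ℂ)) x ∂haarAddCircle
            = 0 := integral_eq_zero_of_add_right_eq_neg
              (fourier_add_half_inv_index h0 (by norm_num))
        change Tendsto _ _ (𝓝 _)
        rw [h2]
        have := ht h h0
        refine this.congr fun N => ?_
        simp only [fourier_eq_ee]
    | zero =>
      change Tendsto _ _ (𝓝 _)
      simp
    | add f g _ _ hf hg =>
      change Tendsto _ _ (𝓝 _)
      have h1 : ∫ x : AddCircle (1 : ℝ), (f + g) x ∂haarAddCircle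
          = (∫ x, f x ∂haarAddCircle) + ∫ x, g x ∂haarAddCircle := by
        simp only [ContinuousMap.add_apply]
        exact integral_add (hint f) (hint g)
      rw [h1]
      refine (hf.add hg).congr fun N => ?_
      simp only [ContinuousMap.add_apply, Finset.sum_add_distrib, add_div]
    | smul c f _ hf =>
      change Tendsto _ _ (𝓝 _)
      have h1 : ∫ x : AddCircle (1 : ℝ), (c • f) x ∂haarAddCircle
          = c * ∫ x, f x ∂haarAddCircle := by
        simp only [ContinuousMap.smul_apply, smul_eq_mul]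
        exact integral_const_mul _ _
      rw [h1]
      refine (hf.const_mul c).congr fun N => ?_
      simp only [ContinuousMap.smul_apply, smul_eq_mul, ← Finset.mul_sum, mul_div_assoc]
  -- pass to the closure
  rw [Metric.tendsto_atTop]
  intro ε hε
  have hf : f ∈ (Submodule.span ℂ (Set.range (@fourier (1 : ℝ)))).topologicalClosure := by
    rw [span_fourier_closure_eq_top]; trivial
  rw [← SetLike.mem_coe, Submodule.topologicalClosure_coe, Metric.mem_closure_iff] at hf
  obtain ⟨g, hg, hfg⟩ := hf (ε / 3) (by positivity)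
  obtain ⟨N₀, hN₀⟩ := (Metric.tendsto_atTop.mp (hspan g hg)) (ε / 3) (by positivity)
  refine ⟨N₀, fun N hN => ?_⟩
  have hN' := hN₀ N hN
  have hd : ∀ x, ‖f x - g x‖ ≤ dist f g := fun x => by
    rw [← dist_eq_norm]; exact ContinuousMap.dist_apply_le_dist x
  have h1 : ‖(∑ n ∈ range N, f (t n : AddCircle (1 : ℝ))) / (N : ℂ)
      - (∑ n ∈ range N, g (t n : AddCircle (1 : ℝ))) / (N : ℂ)‖ ≤ dist f g := by
    rw [← sub_div, ← Finset.sum_sub_distrib]
    exact avg_norm_le dist_nonneg (fun n => hd _) N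
  have h2 : ‖(∫ x, f x ∂haarAddCircle) - ∫ x, g x ∂haarAddCircle‖ ≤ dist f g := by
    rw [← integral_sub (hint f) (hint g)]
    have := norm_integral_le_of_norm_le_const (μ := (haarAddCircle : Measure (AddCircle (1:ℝ))))
      (f := fun x => f x - g x) (C := dist f g) (Eventually.of_forall hd)
    simpa using this
  rw [dist_eq_norm] at hN' ⊢
  have h3 : (∑ n ∈ range N, f (t n : AddCircle (1 : ℝ))) / (N : ℂ) - ∫ x, f x ∂haarAddCircle
      = ((∑ n ∈ range N, f (t n : AddCircle (1 : ℝ))) / (N : ℂ)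
        - (∑ n ∈ range N, g (t n : AddCircle (1 : ℝ))) / (N : ℂ))
      + ((∑ n ∈ range N, g (t n : AddCircle (1 : ℝ))) / (N : ℂ) - ∫ x, g x ∂haarAddCircle)
      - ((∫ x, f x ∂haarAddCircle) - ∫ x, g x ∂haarAddCircle) := by ring
  rw [h3]
  calc _ ≤ _ := norm_sub_le _ _
    _ ≤ _ := add_le_add_left (norm_add_le _ _) _
    _ < ε := by linarith

end Pool.Agent.Lib.MP_5b6025_nt
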